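import Mathlib
import Pool.Agent.K1H77.CG.Stm

/-! # Automorphisms of a connected cubic multigraph which fix all vertices

If `M` is connected with more than two vertices, an edge-end has at most one partner (another
edge-end at the same vertex, leading to the same vertex). Exchanging partners everywhere is an
automorphism `σ` that moves edge-ends at all vertices where any automorphism fixing the vertices
moves one; so there are at most `6 ^ mv σ` such automorphisms. -/

set_option autoImplicit false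

open Finset

namespace Pool.Agent.K1H87.CG

open Pool.Agent.K1H77.CG

/-- `h'` is a partner of `h` -/
def Part {n : ℕ} (M : Equiv.Perm (HE n)) (h h' : HE n) : Prop :=
  h' ≠ h ∧ h'.1 = h.1 ∧ (M h').1 = (M h).1

theorem Part.symm {n : ℕ} {M : Equiv.Perm (HE n)} {h h' : HE n} (p : Part M h h') : Part M h' h :=
  ⟨p.1.symm, p.2.1.symm, p.2.2.symm⟩

theorem Part.map {n : ℕ} {M : Equiv.Perm (HE n)} (hM : IsMat M) {h h' : HE n} (p : Part M h h') :
    Part M (M h) (M h') := by
  refine ⟨fun e => p.1 (M.injective e), p.2.2, ?_⟩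
  rw [hM.1, hM.1]
  exact p.2.1

theorem fin3 (a b c : Fin 3) (h1 : a ≠ b) (h2 : a ≠ c) (h3 : b ≠ c) (i : Fin 3) :
    i = a ∨ i = b ∨ i = c := by
  revert a b c i
  decide

theorem Part.uniq {n : ℕ} {M : Equiv.Perm (HE n)} (hn : 2 < n) (hM : IsMat M) (hc : Conn M)
    {h a b : HE n} (pa : Part M h a) (pb : Part M h b) : a = b := by
  by_contra hab
  obtain ⟨v, i⟩ := h
  obtain ⟨va, ia⟩ := a
  obtain ⟨vb, ib⟩ := b
  obtain ⟨a1, a2, a3⟩ := pa
  obtain ⟨b1, b2, b3⟩ := pb
  simp only at a2 b2
  subst a2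
  subst b2
  have hia : ia ≠ i := fun e => a1 (by rw [e])
  have hib : ib ≠ i := fun e => b1 (by rw [e])
  have hiab : ia ≠ ib := fun e => hab (by rw [e])
  set w : Fin n := (M (vb, i)).1 with hw
  have hall : ∀ j : Fin 3, (M (vb, j)).1 = w := by
    intro j
    rcases fin3 ia ib i hiab hia hib j with rfl | rfl | rfl
    · exact a3
    · exact b3
    · rfl
  have hinj : Function.Injective (fun j : Fin 3 => (M (vb, j)).2) := by
    intro j j' hjj
    have h1 : M (vb, j) = M (vb, j') := Prod.ext ((hall j).trans (hall j').symm) hjj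
    exact (Prod.ext_iff.1 (M.injective h1)).2
  have hsurj := Finite.surjective_of_injective hinj
  have hS := hc {vb, w} ⟨vb, by simp⟩ (by
    rintro ⟨u, j⟩ hu
    simp only [mem_insert, mem_singleton] at hu ⊢
    rcases hu with rfl | rfl
    · exact Or.inr (hall j)
    · obtain ⟨j', hj'⟩ := hsurj j
      have h1 : M (vb, j') = (w, j) := Prod.ext (hall j') hj'
      left
      rw [← h1, hM.1])
  have hcard := congrArg Finset.card hS
  rw [card_univ, Fintype.card_fin] at hcard
  have := Finset.card_le_two (a := vb) (b := w)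
  omega

open Classical in
/-- exchange of the partners -/
noncomputable def ex {n : ℕ} (M : Equiv.Perm (HE n)) (h : HE n) : HE n :=
  if p : ∃ h', Part M h h' then p.choose else h

theorem ex_of_part {n : ℕ} {M : Equiv.Perm (HE n)} (hn : 2 < n) (hM : IsMat M) (hc : Conn M)
    {h h' : HE n} (p : Part M h h') : ex M h = h' := by
  have hp : ∃ h', Part M h h' := ⟨h', p⟩
  unfold ex
  rw [dif_pos hp]
  exact Part.uniq hn hM hc hp.choose_spec p

theorem ex_of_not {n : ℕ} {M : Equiv.Perm (HE n)} {h : HE n} (p : ¬ ∃ h', Part M h h') :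
    ex M h = h := by
  unfold ex
  rw [dif_neg p]

theorem ex_ex {n : ℕ} {M : Equiv.Perm (HE n)} (hn : 2 < n) (hM : IsMat M) (hc : Conn M) :
    Function.Involutive (ex M) := by
  intro h
  by_cases p : ∃ h', Part M h h'
  · obtain ⟨h', p⟩ := p
    rw [ex_of_part hn hM hc p, ex_of_part hn hM hc p.symm]
  · rw [ex_of_not p, ex_of_not p]

theorem ex_fst {n : ℕ} {M : Equiv.Perm (HE n)} (hn : 2 < n) (hM : IsMat M) (hc : Conn M)
    (h : HE n) : (ex M h).1 = h.1 := by
  by_cases p : ∃ h', Part M h h'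
  · obtain ⟨h', p⟩ := p
    rw [ex_of_part hn hM hc p]
    exact p.2.1
  · rw [ex_of_not p]

theorem ex_comm {n : ℕ} {M : Equiv.Perm (HE n)} (hn : 2 < n) (hM : IsMat M) (hc : Conn M)
    (h : HE n) : ex M (M h) = M (ex M h) := by
  by_cases p : ∃ h', Part M h h'
  · obtain ⟨h', p⟩ := p
    rw [ex_of_part hn hM hc p, ex_of_part hn hM hc (p.map hM)]
  · have p' : ¬ ∃ h', Part M (M h) h' := by
      rintro ⟨k, hk⟩
      have := hk.map hM
      rw [hM.1] at this
      exact p ⟨_, this⟩
    rw [ex_of_not p, ex_of_not p']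

/-- the permutation of the edge-ends at `v` -/
noncomputable def loc {n : ℕ} (σ : Equiv.Perm (HE n)) (hσ : ∀ h, (σ h).1 = h.1) (v : Fin n) :
    Equiv.Perm (Fin 3) :=
  Equiv.ofBijective (fun i => (σ (v, i)).2) (by
    have hinj : Function.Injective (fun i : Fin 3 => (σ (v, i)).2) := by
      intro i j hij
      have h1 : σ (v, i) = σ (v, j) := Prod.ext ((hσ (v, i)).trans (hσ (v, j)).symm) hij
      exact (Prod.ext_iff.1 (σ.injective h1)).2
    exact Finite.injective_iff_bijective.1 hinj)

theorem loc_apply {n : ℕ} (σ : Equiv.Perm (HE n)) (hσ : ∀ h, (σ h).1 = h.1) (v : Fin n)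
    (i : Fin 3) : σ (v, i) = (v, loc σ hσ v i) :=
  Prod.ext (hσ (v, i)) rfl

open Classical in
theorem card_comm_le {n : ℕ} (M : Equiv.Perm (HE n)) (T : Finset (Fin n))
    (hT : ∀ v i h', Part M (v, i) h' → v ∈ T) :
    ((Wr0 n).filter (fun σ => ∀ h, σ (M h) = M (σ h))).card ≤ 6 ^ T.card := by
  have hmem : ∀ σ ∈ (Wr0 n).filter (fun σ => ∀ h, σ (M h) = M (σ h)), ∀ h, (σ h).1 = h.1 := by
    intro σ hσ
    have h1 := (mem_filter.1 hσ).1
    unfold Wr0 at h1
    exact (mem_filter.1 h1).2
  let B : Finset (Fin n → Equiv.Perm (Fin 3)) :=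
    Fintype.piFinset (fun v => if v ∈ T then univ else {1})
  have hB : B.card = 6 ^ T.card := by
    simp only [B, Fintype.card_piFinset]
    have h1 : ∀ v : Fin n, (if v ∈ T then (univ : Finset (Equiv.Perm (Fin 3))) else {1}).card
        = if v ∈ T then 6 else 1 := by
      intro v
      split_ifs
      · rw [card_univ, Fintype.card_perm, Fintype.card_fin]
        rfl
      · simp
    rw [Finset.prod_congr rfl (fun v _ => h1 v), Finset.prod_ite_mem]
    simp
  rw [← hB]
  refine Finset.card_le_card_of_injOn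
    (fun σ => if hσ : ∀ h, (σ h).1 = h.1 then loc σ hσ else 1) ?_ ?_
  · intro σ hσ
    have h1 := hmem σ (mem_coe.1 hσ)
    have h2 := (mem_filter.1 (mem_coe.1 hσ)).2
    simp only [dif_pos h1, B, mem_coe, Fintype.mem_piFinset]
    intro v
    split_ifs with hv
    · exact mem_univ _
    · rw [mem_singleton]
      ext i : 1
      by_contra hne
      apply hv
      have h3 := loc_apply σ h1 v i
      refine hT v i (v, loc σ h1 v i) ⟨fun e => hne ?_, rfl, ?_⟩
      · rw [Equiv.Perm.one_apply]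
        exact (Prod.ext_iff.1 e).2
      · rw [← h3, ← h2, h1]
  · intro σ hσ τ hτ hst
    have h1 := hmem σ (mem_coe.1 hσ)
    have h2 := hmem τ (mem_coe.1 hτ)
    simp only [dif_pos h1, dif_pos h2] at hst
    ext x : 1
    obtain ⟨v, i⟩ := x
    rw [loc_apply σ h1, loc_apply τ h2, hst]

theorem t_SQ : S_SQ := by
  classical
  intro n M hn hM hc
  have hinv := ex_ex hn hM hc
  let s : Equiv.Perm (HE n) := hinv.toPerm
  have hs : ∀ h, s h = ex M h := fun h => rfl
  have hs1 : ∀ h, (s h).1 = h.1 := fun h => by rw [hs]; exact ex_fst hn hM hc h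
  have hs2 : ∀ h, s (M h) = M (s h) := fun h => by rw [hs, hs]; exact ex_comm hn hM hc h
  have hle : stab0 M ≤ 6 ^ mv s := by
    unfold stab0 mv
    refine le_trans (le_of_eq ?_) ((card_comm_le M
      (univ.filter (fun v : Fin n => ∃ i, s (v, i) ≠ (v, i))) ?_).trans (le_of_eq ?_))
    · congr
    · intro v i h' p
      rw [mem_filter]
      refine ⟨mem_univ _, i, ?_⟩
      rw [hs, ex_of_part hn hM hc p]
      exact p.1
    · congr
  have hsmem : s ∈ (Wr0 n).filter (fun σ => ∀ h, σ (M h) = M (σ h)) := by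
    rw [mem_filter]
    refine ⟨?_, hs2⟩
    unfold Wr0
    rw [mem_filter]
    exact ⟨mem_univ _, hs1⟩
  calc stab0 M ^ 2 ≤ (6 ^ mv s) ^ 2 := Nat.pow_le_pow_left hle 2
    _ = 36 ^ mv s := by
        rw [← pow_mul, mul_comm, pow_mul]
        norm_num
    _ ≤ ∑ σ ∈ (Wr0 n).filter (fun σ => ∀ h, σ (M h) = M (σ h)), 36 ^ mv σ :=
        Finset.single_le_sum (f := fun σ => 36 ^ mv σ) (fun _ _ => Nat.zero_le _) hsmem
    _ = _ := by congr

end Pool.Agent.K1H87.CG
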